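import Mathlib
import Pool.Agent.H29.Nev1
import Pool.Agent.H29.Nev2

namespace Pool.Agent.Results.MP_e0d2b2_an.Exact

universe u

/-- `C` is admissible: for every nonzero complex Banach space `X`, every `T` with spectrum in the
open unit disc and every `M` bounding the resolvent on `|z| ≥ 1`, all finite sections of
`∑_{j ≥ 1} ‖T^j‖` are at most `C M (M-1)`. -/
def Admissible (C : ℝ) : Prop :=
  ∀ (X : Type u) [NormedAddCommGroup X] [NormedSpace ℂ X] [CompleteSpace X] [Nontrivial X]
    (T : X →L[ℂ] X) (M : ℝ), spectrum ℂ T ⊆ Metric.ball 0 1 →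
    (∀ z : ℂ, 1 ≤ ‖z‖ → ‖resolvent T z‖ ≤ M) →
    ∀ N : ℕ, ∑ j ∈ Finset.range N, ‖T ^ (j + 1)‖ ≤ C * (M * (M - 1))

open Pool.Agent.H29.Nev Filter Topology in
theorem result : Admissible.{u} (Real.exp 1) ∧ ∀ C, Admissible.{0} C → Real.exp 1 ≤ C := by
  constructor
  · intro X _ _ _ _ T M hs hM N
    have hz : ∀ w : ℂ, w ≠ 0 → 1 - w • T = w • (algebraMap ℂ (X →L[ℂ] X) w⁻¹ - T) := by
      intro w h0
      rw [smul_sub, Algebra.algebraMap_eq_smul_one, smul_smul, mul_inv_cancel₀ h0, one_smul]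
    have hu : ∀ w : ℂ, w ≠ 0 → ‖w‖ ≤ 1 → IsUnit (algebraMap ℂ (X →L[ℂ] X) w⁻¹ - T) := by
      intro w h0 hw
      by_contra hn
      have h1 := hs (spectrum.mem_iff.2 hn)
      rw [mem_ball_zero_iff, norm_inv] at h1
      have := (one_le_inv₀ (norm_pos_iff.2 h0)).2 hw
      linarith
    have h := coef T M (fun w hw => by
      by_cases h0 : w = 0
      · simp [h0]
      · rw [hz w h0]; exact (hu w h0 hw).smul (Units.mk0 w h0)) (fun w hw => by
      have h0 : w ≠ 0 := by rintro rfl; simp at hw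
      have e : Ring.inverse (1 - w • T) = w⁻¹ • resolvent T w⁻¹ := by
        have k1 := Ring.mul_inverse_cancel _ (hu w h0 hw.le)
        have k2 := Ring.inverse_mul_cancel _ (hu w h0 hw.le)
        have k3 : (1 - w • T) * (w⁻¹ • resolvent T w⁻¹) = 1 := by
          rw [hz w h0, smul_mul_smul_comm, mul_inv_cancel₀ h0, one_smul, resolvent, k1]
        have k4 : (w⁻¹ • resolvent T w⁻¹) * (1 - w • T) = 1 := by
          rw [hz w h0, smul_mul_smul_comm, inv_mul_cancel₀ h0, one_smul, resolvent, k2]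
        exact Ring.inverse_unit (⟨_, _, k3, k4⟩ : (X →L[ℂ] X)ˣ)
      rw [e, norm_smul, norm_inv, hw, inv_one, one_mul]
      exact hM _ (by rw [norm_inv, hw, inv_one]))
    exact numeric (a := fun j => ‖T ^ j‖) (fun _ => norm_nonneg _) h (by simpa using h 0 0) N
  · intro C hC
    have key : ∀ n : ℕ, (1 + 1 / ((n + 1 : ℕ):ℝ)) ^ (n + 1) / (1 + 1 / ((n:ℝ) + 1)) ≤ C := by
      intro n
      have h := hC (XX n) (TT n) (mm n) (fun z hz => by
        by_contra hn
        have h0 : z ≠ 0 := by rintro rfl; simp at hn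
        exact spectrum.mem_iff.1 hz (res n h0).1) (fun z hz => by
        have h0 : z ≠ 0 := by rintro rfl; norm_num at hz
        have h1 : ‖z⁻¹‖ ≤ 1 := by rw [norm_inv]; exact inv_le_one_of_one_le₀ hz
        rw [(res n h0).2, norm_smul]
        exact (mul_le_of_le_one_left (norm_nonneg _) h1).trans (step n h1)) 1
      have h2 := lower n
      simp only [Finset.sum_range_one, zero_add, pow_one] at h
      have h3 := h2.trans h
      unfold mm at h3
      push_cast
      rw [div_le_iff₀ (by positivity)] at h3 ⊢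
      refine h3.trans (le_of_eq ?_)
      field_simp; ring
    have t1 := (Real.tendsto_one_add_div_pow_exp 1).comp (tendsto_add_atTop_nat 1)
    have t2 : Tendsto (fun n : ℕ => 1 + 1 / ((n:ℝ) + 1)) atTop (𝓝 (1 + 0)) :=
      tendsto_const_nhds.add tendsto_one_div_add_atTop_nhds_zero_nat
    have t3 := t1.div t2 (by norm_num)
    simp only [add_zero, div_one] at t3
    exact le_of_tendsto' t3 key

end Pool.Agent.Results.MP_e0d2b2_an.Exact
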